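import Pool.Agent.U74.BCC.GeNil

/-!
# Surjectivity of the Stolz index map for the groups `GE_2` of noncommutative rings with nilpotents

`BCClass C` says that the class `C` of groups has the closure properties which are known for the class of
the groups all of whose countable subgroups satisfy the Baum-Connes conjecture with coefficients:
subgroups; groups whose finitely generated subgroups are in `C`; virtually solvable groups (Higson,
Kasparov); extensions such that the quotient and the preimages of its finite subgroups are in `C`, and
groups acting on trees with stabilizers in `C` (Oyono-Oyono); `GL_2(K)` for all fields `K` (Guentner,
Higson, Weinberger; Higson, Kasparov).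

The ring `B` is `NilByDegree` if it has homomorphisms to finitely many algebras over fields with degree
functions (`IsDegree`; commutative or not) such that the intersection of the kernels is locally
nilpotent. Examples (not formalized): for a commutative noetherian ring `R` with minimal primes `pᵢ`
the free algebras `R<X>` map to the free algebras over the residue fields `K(pᵢ)`, and the intersection
of the kernels is nilpotent; the same holds for the enveloping algebras of Lie algebras over `R` which
are free modules, for Weyl algebras over `R`, and for polynomial rings.

Theorem: `GE_2(B)`, the group generated by the elementary and the invertible diagonal matrices, is in `C`.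
So its countable subgroups satisfy the Baum-Connes conjecture with coefficients, their real assembly maps
are isomorphisms (Baum, Karoubi), and the map `Θ` of Q1 is surjective for them.

Outline of the proof. For an algebra `A` with a degree function `GE_2(A)` is contained in a group acting on
a tree with stabilizers which embed in `GL_2(K)` or are solvable (`U670`, `U74.BCC.Tr`). The intersection
of the kernels of `GE_2(B) → GE_2(Aᵢ)` consists of matrices congruent to one modulo a locally nilpotent
ideal of the matrix ring, so its finitely generated subgroups are solvable, and such extensions are dealt
with by the closure properties.
-/

set_option autoImplicit false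

namespace Pool.Agent.Results.MP_8db816_gt.ElementaryGroups

open Pool.Agent.Helper58.EN (LN)
open Pool.Agent.U74.BCC (BCClass)
open Pool.Agent.U670.GE (IsDegree GE2)

/-- the ring `B` has homomorphisms to finitely many algebras over fields with degree functions such that
the intersection of the kernels is locally nilpotent -/
def NilByDegree (B : Type) [Ring B] : Prop :=
  ∃ (n : ℕ) (K A : Fin n → Type) (_ : ∀ i, Field (K i)) (_ : ∀ i, Ring (A i))
    (_ : ∀ i, Algebra (K i) (A i)) (deg : ∀ i, A i → ℕ) (h : ∀ i, B →+* A i),
    (∀ i, IsDegree (K i) (A i) (deg i)) ∧ LN {b : B | ∀ i, h i b = 0}

/-- Let `C` be a class of groups with the closure properties `BCClass C`, and `B` a ring with finitely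
many homomorphisms to algebras over fields with degree functions, such that the intersection of the
kernels is locally nilpotent. Then `GE_2(B)` is in `C`. -/
theorem result (C : ∀ (G : Type) [Group G], Prop) (hC : BCClass C) (B : Type) [Ring B]
    (hB : NilByDegree B) : C ↥(GE2 B) := by
  obtain ⟨n, K, A, _, _, _, deg, h, hd, hL⟩ := hB
  exact U74.BCC.GN.main hC B n A (fun i => U74.BCC.ge2_bc hC (hd i)) h hL (GE2 B)
    fun i g hg => U74.BCC.GN.mp_ge2 (h i) hg

end Pool.Agent.Results.MP_8db816_gt.ElementaryGroups
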