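import Pool.Agent.U74.BCC.Flag2

/-!
# Surjectivity of the Stolz index map for units of rings with identities of degree at most five

`BCClass C` says that the class `C` of groups has the closure properties which are known for the class of
the groups all of whose countable subgroups satisfy the Baum-Connes conjecture with coefficients:
subgroups; groups whose finitely generated subgroups are in `C`; virtually solvable groups (Higson,
Kasparov); extensions such that the quotient and the preimages of its finite subgroups are in `C`, and
groups acting on trees with stabilizers in `C` (Oyono-Oyono); `GL_2(K)` for all fields `K`, whose countable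
subgroups have the Haagerup property (Guentner, Higson, Weinberger; Higson, Kasparov).

A ring satisfies a proper identity of degree `d` (`PI d c`) if
`∑ c(σ) x(σ(1)) ... x(σ(d)) = 0` for all elements `x(1), ..., x(d)`, where `σ` runs through the
permutations, the `c(σ)` are integers and `c(1) = 1`. The ring `A` is `LocallyFive` if each of its
finitely generated subrings has a homomorphism with locally nilpotent kernel to a ring with a proper
identity of degree at most five. Examples: commutative rings (degree two), Grassmann algebras of
`ℤ`-modules (degree three, `[[x, y], z] = 0`), rings of `2 × 2` matrices over commutative rings and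
their subrings (degree four), group rings over commutative rings of groups with an abelian subgroup of
index two (degree four), the algebras over commutative rings which are generated as modules by four
elements (degree five), e.g. quaternion algebras and their orders, upper triangular matrices of any
size over a commutative ring (the strictly triangular matrices form a nilpotent ideal), and the subrings
and quotients of such rings.

* (1) Let `G` be a group with homomorphisms to finitely many unit groups of `LocallyFive` rings, such
  that the finitely generated subgroups of the intersection of the kernels are solvable. Then `G` is in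
  `C`.
* (2) In particular the group of units of a ring with a proper identity of degree at most five is in `C`.
* (3) The group of units of an algebra over a commutative ring which is generated by four elements as a
  module is in `C`.
* (4) Let `M` be a module over a commutative ring with a chain of submodules
  `0 = M₀ ⊆ M₁ ⊆ ... ⊆ Mₙ = M` such that each `Mᵢ₊₁` is generated by `Mᵢ` and two elements. Each group
  acting on `M` by automorphisms preserving all `Mᵢ`, with solvable kernel, is in `C`. For example, the
  automorphism group of a module generated by two elements.

So the countable groups of this kind satisfy the Baum-Connes conjecture with coefficients, their real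
assembly map is an isomorphism (Baum, Karoubi), and the map `Θ` of Q1 is surjective. The bound five
is sharp for the method: `3 × 3` matrices satisfy an identity of degree six, and the Baum-Connes
conjecture with coefficients is not known for `GL_3(ℤ)`.

Outline of the proof. Let `S` be a ring with a proper identity of degree at most five. By the theorems
of Levitzki and Kaplansky (library `Helper58.EN`) its quotient by the Levitzki radical embeds in a
product of matrix rings over fields, which are spanned by the image. So these matrix rings satisfy the
same identity. Evaluation of the identity at the matrix units `E₁₁, E₁₂, E₂₂, E₂₃, E₃₃` shows that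
the matrices have size at most two. The product of the rings `M_2(K)` is `M_2(T)` for the commutative ring
`T`, the product of the fields, so the unit group maps to `GL_2(T)`, and the kernel is `1 + J` for a
locally nilpotent ideal `J`; its finitely generated subgroups are solvable. The group `GL_2(T)` is in `C`
for every commutative ring `T` (library `U74.BCC.Base`, reduction to noetherian rings and to the residue
fields of the minimal primes), and extensions with locally solvable kernels are dealt with by the
closure properties. For (4), the endomorphisms preserving the chain form a ring, the endomorphisms with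
`f(Mᵢ₊₁) ⊆ Mᵢ` form a nilpotent ideal, and the quotient satisfies the standard identity of degree five:
modulo `Mᵢ` the endomorphisms act on `Mᵢ₊₁` through `2 × 2` matrices over the ring.
-/

set_option autoImplicit false

namespace Pool.Agent.Results.MP_8db816_gt.IdentitiesOfDegreeFive

open Pool.Agent.Helper58.EN (PI LN)
open Pool.Agent.U74.BCC (BCClass)

/-- each finitely generated subring has a homomorphism with locally nilpotent kernel to a ring with a
proper identity of degree at most five -/
def LocallyFive (A : Type) [Ring A] : Prop :=
  ∀ Y : Finset A, ∃ (S : Type) (_ : Ring S) (f : Subring.closure (Y : Set A) →+* S) (d : ℕ)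
    (c : Equiv.Perm (Fin d) → ℤ), d ≤ 5 ∧ c 1 = 1 ∧ PI d c S ∧ LN {x | f x = 0}

theorem locallyFive_of_pi {A : Type} [Ring A] (d : ℕ) (c : Equiv.Perm (Fin d) → ℤ) (hd : d ≤ 5)
    (hc : c 1 = 1) (h : PI d c A) : LocallyFive A := by
  intro Y
  refine ⟨A, inferInstance, (Subring.closure (Y : Set A)).subtype, d, c, hd, hc, h, ?_⟩
  intro X hX
  refine ⟨1, fun l hl hlen => ?_⟩
  obtain ⟨x, rfl⟩ := List.length_eq_one_iff.mp hlen
  have h1 := hX (Finset.mem_coe.mpr (hl x List.mem_cons_self))
  have h2 : ((x : Subring.closure (Y : Set A)) : A) = 0 := h1
  rw [List.prod_singleton]
  exact Subtype.ext h2

/-- the standard identity of degree five for algebras generated by four elements as modules -/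
theorem pi_four {R A : Type} [CommRing R] [Ring A] [Algebra R A] (s : Fin 4 → A)
    (hs : Submodule.span R (Set.range s) = ⊤) :
    PI 5 (fun σ => ((Equiv.Perm.sign σ : ℤˣ) : ℤ)) A := by
  intro x
  let F : A [⋀^Fin 5]→ₗ[R] A := MultilinearMap.alternatization (MultilinearMap.mkPiAlgebraFin R 5 A)
  let π : (Fin 4 → R) →ₗ[R] A := Fintype.linearCombination R s
  have hπ : Function.Surjective π := by
    rw [← LinearMap.range_eq_top, Fintype.range_linearCombination]
    exact hs
  have h0 : F.compLinearMap π = 0 := by
    refine Module.Basis.ext_alternating (Pi.basisFun R (Fin 4)) ?_
    intro v hv
    exfalso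
    have := Fintype.card_le_of_injective v hv
    rw [Fintype.card_fin, Fintype.card_fin] at this
    omega
  choose y hy using fun i => hπ (x i)
  have h1 : F x = 0 := by
    have h2 := congrArg (fun H : (Fin 4 → R) [⋀^Fin 5]→ₗ[R] A => H y) h0
    have h3 : (F.compLinearMap π) y = F x := by
      rw [AlternatingMap.compLinearMap_apply]
      congr 1
      funext i
      exact hy i
    rw [← h3]
    exact h2
  rw [← h1]
  simp only [F, MultilinearMap.alternatization_apply]
  refine Finset.sum_congr rfl fun σ _ => ?_
  rw [MultilinearMap.domDomCongr_apply, MultilinearMap.mkPiAlgebraFin_apply, Units.smul_def,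
    zsmul_eq_mul]

/-- Let `C` be a class of groups with the closure properties `BCClass C`. (1) If `G` has homomorphisms to
the unit groups of finitely many `LocallyFive` rings, such that the finitely generated subgroups of
the intersection of the kernels are solvable, then `G` is in `C`. (2) Unit groups of rings with proper
identities of degree at most five are in `C`. (3) Unit groups of algebras over commutative rings which are
generated by four elements as modules are in `C`. (4) Groups of automorphisms of modules over
commutative rings preserving a chain of submodules, each generated by the preceding one and two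
elements, are in `C`. -/
theorem result (C : ∀ (G : Type) [Group G], Prop) (hC : BCClass C) :
    (∀ (G : Type) [Group G] (n : ℕ) (A : Fin n → Type) [∀ i, Ring (A i)] (f : ∀ i, G →* (A i)ˣ),
      (∀ i, LocallyFive (A i)) →
      (∀ U : Finset G, (∀ u ∈ U, ∀ i, f i u = 1) → Group.IsSolvable (Subgroup.closure (U : Set G))) →
        C G) ∧
    (∀ (A : Type) [Ring A] (d : ℕ) (c : Equiv.Perm (Fin d) → ℤ), d ≤ 5 → c 1 = 1 → PI d c A → C Aˣ) ∧
    (∀ (R A : Type) [CommRing R] [Ring A] [Algebra R A] (s : Fin 4 → A),
      Submodule.span R (Set.range s) = ⊤ → C Aˣ) ∧
    ∀ (R M : Type) [CommRing R] [AddCommGroup M] [Module R M] (N : ℕ → Submodule R M) (n : ℕ),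
      N 0 = ⊥ → N n = ⊤ → (∀ i < n, ∃ a b : M, N (i + 1) = N i ⊔ Submodule.span R {a, b}) →
      ∀ (G : Type) [Group G] (ρ : G →* (Module.End R M)ˣ),
        (∀ g, ∀ i ≤ n, ∀ z ∈ N i, (ρ g : Module.End R M) z ∈ N i) → Group.IsSolvable ρ.ker → C G := by
  have key : ∀ (A : Type) [Ring A], LocallyFive A → C Aˣ := fun A _ h =>
    U74.BCC.units_locally_five hC A h
  refine ⟨?_, fun A _ d c hd hc h => key A (locallyFive_of_pi d c hd hc h), ?_,
    fun R M _ _ _ N n h0 hn hab G _ ρ hρ hk => U74.BCC.c_chain hC N n h0 hn hab ρ hρ hk⟩
  · intro G _ n A _ f hA hf
    obtain ⟨P, _, φ, hP, hφ⟩ := hC.multi Finset.univ (fun i => (A i)ˣ) f fun i => key _ (hA i)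
    exact hC.lsol φ hP fun U hU => hf U fun u hu i => (hφ u).1 (hU u hu) i (Finset.mem_univ i)
  · intro R A _ _ _ s hs
    exact key A (locallyFive_of_pi 5 _ le_rfl (by simp) (pi_four s hs))

end Pool.Agent.Results.MP_8db816_gt.IdentitiesOfDegreeFive
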