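import Pool.Agent.U74.BCC.Chain

/-!
# Surjectivity of the Stolz index map for groups of polynomial automorphisms

`BCClass C` and `FinExtGL2 C` say that the class `C` of groups has the closure properties which are known
for the class of the groups all of whose countable subgroups satisfy the Baum-Connes conjecture with
coefficients: subgroups; groups whose finitely generated subgroups are in `C`; virtually solvable groups
(Higson, Kasparov); extensions such that the quotient and the preimages of its finite subgroups are in
`C`, and groups acting on trees with stabilizers in `C` (Oyono-Oyono); groups with a subgroup of finite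
index which embeds in `GL_2(K)` for a field `K`, whose countable subgroups have the Haagerup property
(Guentner, Higson, Weinberger; Higson, Kasparov). It is not known that the class is closed under
overgroups of finite index or under extensions.

For a field `K`, `planeGroup K` is the group of automorphisms of `K[x, y]` generated by the affine and the
triangular ones; by the theorem of Jung and van der Kulk it is the group of all automorphisms.

* (1) For every commutative ring `R` (nilpotent elements and zero divisors are allowed) the groups of
  automorphisms `g` of `R[x, y]` over `R` which are fibrewise tame are in `C`. Here `g` is fibrewise tame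
  if for all homomorphisms from `R` to algebraically closed fields `K` the images of `g(x)`, `g(y)` in
  `K[x, y]` are the components of an element of `planeGroup K`. (By the theorem of Jung and van der Kulk
  this holds for all `g`.)
* (2) For every commutative `ℚ`-algebra `R` the group of all automorphisms of `R[x, y]` over `R` is
  in `C`. (It contains wild automorphisms, for instance Nagata's.)
* (3) Let `P` be a group acting on a ring `Rₘ` with solvable kernel, which preserves the rings of a
  chain `R₀ ⊆ R₁ ⊆ ... ⊆ Rₘ` such that each `Rᵢ₊₁` is a polynomial ring in one or two variables over the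
  integral domain `Rᵢ`, and such that the group of automorphisms of `R₀` induced by `P` is in `C`. In
  the steps `Rᵢ₊₁ = Rᵢ[x, y]` let the images of `x` and `y` under the elements of `P` be the components
  of elements of `planeGroup K`, `K` the field of fractions of `Rᵢ`. (By the theorem of Jung and van der
  Kulk they always are.) Then `P` is in `C`. For example, the group of the automorphisms of
  `k[x₁, ..., xₙ]` over a field `k` preserving `k[x₁, ..., xᵢ]` for `i = 1, ..., n - 2`, or for all
  even `i`.

So the real assembly map of the countable groups of this kind is an isomorphism (Baum, Karoubi), and the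
map `Θ` of Q1 is surjective.

Outline of the proof. A finitely generated group of automorphisms of `R[x, y]` over `R` is defined over a
noetherian subring `R'`. The minimal primes of `R'` are contracted from primes of `R`; reduction modulo
these gives homomorphisms to finitely many groups `planeGroup K`, and the intersection of the kernels
consists of automorphisms trivial modulo the nilradical of `R'`, so it is solvable. The group
`planeGroup K` acts on the tree of the cosets of the affine and of the triangular group; the latter is
solvable, and the affine group maps to `GL_2(K)` with abelian kernel. For (3) one has to know the preimages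
of the finite subgroups `F` of the group of automorphisms of `Rᵢ` induced by `P` in that of `Rᵢ₊₁`. In a
step with one variable they are virtually solvable. In a step with two variables they embed in the
group of semilinear automorphisms of `K[x, y]` such that the automorphism of `K` is in `F`, and this
group acts on a tree whose stabilizers are the semilinear affine group, which maps to `GL_2(K) ⋊ F` with
abelian kernel, and the semilinear triangular group, which is virtually solvable.
-/

set_option autoImplicit false

namespace Pool.Agent.Results.MP_8db816_gt.PlaneAutomorphisms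

open MvPolynomial
open Pool.Agent.U74.BCC (BCClass FinExtGL2)

/-- the polynomial ring in two variables -/
abbrev Plane (R : Type) [CommRing R] : Type := MvPolynomial (Fin 2) R

/-- the linear polynomial `a x + b y + c` -/
noncomputable def linear {K : Type} [Field K] (a b c : K) : Plane K :=
  MvPolynomial.C a * X 0 + MvPolynomial.C b * X 1 + MvPolynomial.C c

/-- the polynomial `p (y)` -/
noncomputable def inY {K : Type} [Field K] (p : Polynomial K) : Plane K := Polynomial.aeval (X 1) p

/-- the automorphism `g` of `K[x, y]` is affine: `x ↦ a x + b y + e`, `y ↦ c x + d y + f` -/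
def IsAffine {K : Type} [Field K] (g : Plane K ≃ₐ[K] Plane K) : Prop :=
  ∃ a b c d e f : K, g (X 0) = linear a b e ∧ g (X 1) = linear c d f

/-- the automorphism `g` of `K[x, y]` is triangular: `x ↦ a x + p(y)`, `y ↦ b y + c` -/
def IsTriangular {K : Type} [Field K] (g : Plane K ≃ₐ[K] Plane K) : Prop :=
  ∃ (a b c : K) (p : Polynomial K), g (X 0) = linear a 0 0 + inY p ∧ g (X 1) = linear 0 b c

/-- the group generated by the affine and the triangular automorphisms of `K[x, y]` -/
noncomputable def planeGroup (K : Type) [Field K] : Subgroup (Plane K ≃ₐ[K] Plane K) :=
  Subgroup.closure {g | IsAffine g ∨ IsTriangular g}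

/-- for every homomorphism `f` from `R` to an algebraically closed field `K` there is a `t` in the group
`planeGroup K` with `t(x) = f(g(x))` and `t(y) = f(g(y))` -/
def FibreTame {R : Type} [CommRing R] (g : Plane R ≃ₐ[R] Plane R) : Prop :=
  ∀ (K : Type) [Field K] [IsAlgClosed K] (f : R →+* K),
    ∃ t ∈ planeGroup K, ∀ i, t (X i) = map f (g (X i))

/-- there is a `t` in `planeGroup K`, `K` the field of fractions of `R`, with `t(x) = g(x)` and
`t(y) = g(y)` -/
def FractionTame {R : Type} [CommRing R] [IsDomain R] (g : RingAut (Plane R)) : Prop :=
  ∃ t ∈ planeGroup (FractionRing R), ∀ i, t (X i) = map (algebraMap R (FractionRing R)) (g (X i))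

/-- The group `P` acts on the ring `R` by `φ`, preserving a chain of polynomial rings. `base`: the group
of the automorphisms of `R` induced by `P` is in the class `C`. `one`, `two`: `P` acts on a polynomial ring
over the integral domain `R` in one or two variables and preserves `R`, and the action on `R` is of
this kind; in the case of two variables the elements of `P` are tame over the field of fractions. -/
inductive Chain (C : ∀ (G : Type) [Group G], Prop) (P : Type) [Group P] :
    (R : Type) → [CommRing R] → (P →* RingAut R) → Prop
  | base (R : Type) [CommRing R] (φ : P →* RingAut R) (h : C φ.range) : Chain C P R φ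
  | one (R : Type) [CommRing R] [IsDomain R] (τ : P →* RingAut R)
      (φ : P →* RingAut (MvPolynomial (Fin 1) R)) (h : Chain C P R τ)
      (hτ : ∀ p r, φ p (MvPolynomial.C r) = MvPolynomial.C (τ p r)) :
      Chain C P (MvPolynomial (Fin 1) R) φ
  | two (R : Type) [CommRing R] [IsDomain R] (τ : P →* RingAut R) (φ : P →* RingAut (Plane R))
      (h : Chain C P R τ) (hτ : ∀ p r, φ p (MvPolynomial.C r) = MvPolynomial.C (τ p r))
      (ht : ∀ p, FractionTame (φ p)) : Chain C P (Plane R) φ

theorem isAffine_iff {K : Type} [Field K] (g : Plane K ≃ₐ[K] Plane K) :
    IsAffine g ↔ g ∈ U293.PA.affG (⊤ : Subfield K) := U293.PA.aff_top.symm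

theorem isTriangular_iff {K : Type} [Field K] (g : Plane K ≃ₐ[K] Plane K) :
    IsTriangular g ↔ g ∈ U293.PA.triG (⊤ : Subfield K) := by
  rw [U293.PA.tri_top]
  constructor
  · rintro ⟨a, b, c, p, h0, h1⟩
    refine ⟨a, b, c, p, ?_, ?_⟩
    · rw [h0]
      simp [linear, inY]
    · rw [h1]
      simp [linear]
  · rintro ⟨a, b, c, p, h0, h1⟩
    refine ⟨a, b, c, p, ?_, ?_⟩
    · rw [h0]
      simp [linear, inY]
    · rw [h1]
      simp [linear]

theorem planeGroup_eq (K : Type) [Field K] : planeGroup K = U293.PA.Tame K := by
  apply le_antisymm
  · rw [planeGroup, Subgroup.closure_le]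
    rintro g (hg | hg)
    · exact Subgroup.mem_sup_left ((isAffine_iff g).1 hg)
    · exact Subgroup.mem_sup_right ((isTriangular_iff g).1 hg)
  · refine sup_le ?_ ?_
    · intro g hg
      exact Subgroup.subset_closure (Or.inl ((isAffine_iff g).2 hg))
    · intro g hg
      exact Subgroup.subset_closure (Or.inr ((isTriangular_iff g).2 hg))

theorem chain_mem {C : ∀ (G : Type) [Group G], Prop} (hC : BCClass C) (hV : FinExtGL2 C) {P : Type}
    [Group P] {R : Type} [CommRing R] {φ : P →* RingAut R} (h : Chain C P R φ) : C φ.range := by
  induction h with
  | base R φ h => exact h
  | one R τ φ h hτ ih => exact U74.BCC.step_one hC τ φ hτ ih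
  | two R τ φ h hτ ht ih =>
    refine U74.BCC.step_two hC hV τ φ hτ (fun p => ?_) ih
    obtain ⟨t, ht1, ht2⟩ := ht p
    rw [planeGroup_eq] at ht1
    exact ⟨t, ht1, ht2⟩

/-- Let `C` be a class of groups with the closure properties `BCClass C` and `FinExtGL2 C`. (1) For every
commutative ring `R`, each group of fibrewise tame automorphisms of `R[x, y]` over `R` is in `C`. (2)
For every commutative `ℚ`-algebra `R` the group of all automorphisms of `R[x, y]` over `R` is in `C`. (3)
Groups acting on a ring with solvable kernel which preserve a chain of polynomial rings are in `C`. -/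
theorem result (C : ∀ (G : Type) [Group G], Prop) (hC : BCClass C) (hV : FinExtGL2 C) :
    (∀ (R : Type) [CommRing R] (H : Subgroup (Plane R ≃ₐ[R] Plane R)), (∀ g ∈ H, FibreTame g) → C H) ∧
    (∀ (R : Type) [CommRing R], Nonempty (ℚ →+* R) → C (Plane R ≃ₐ[R] Plane R)) ∧
    ∀ (P : Type) [Group P] (R : Type) [CommRing R] (φ : P →* RingAut R), Chain C P R φ →
      Group.IsSolvable φ.ker → C P := by
  refine ⟨?_, ?_, ?_⟩
  · intro R _ H hH
    have hle : H ≤ U293.EP.FT (σ := Fin 2) (fun K _ => U293.EP.TameS K) R := by
      intro g hg K _ _ f
      obtain ⟨t, ht1, ht2⟩ := hH g hg K f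
      rw [planeGroup_eq] at ht1
      have h2 : U293.EP.bc f g = t := by
        apply U293.EP.an_ext
        intro i
        rw [U293.EP.bc_X, ht2]
      rw [h2]
      exact ht1
    exact hC.sub _ _ (Subgroup.inclusion hle) (Subgroup.inclusion_injective _)
      (U74.BCC.c_fibreTame hC R)
  · rintro R _ ⟨j⟩
    refine hC.sub _ _ ((MonoidHom.id (Plane R ≃ₐ[R] Plane R)).codRestrict
      (U293.EP.FT (σ := Fin 2) (fun K _ => U293.EP.TameS K) R)
      (fun g => U293.EP.fibreTame_rat R j g)) ?_ (U74.BCC.c_fibreTame hC R)
    intro a b hab
    exact congrArg Subtype.val hab
  · intro P _ R _ φ h hk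
    refine hC.sol φ.rangeRestrict (chain_mem hC hV h) ?_
    rw [MonoidHom.ker_rangeRestrict]
    exact hk

end Pool.Agent.Results.MP_8db816_gt.PlaneAutomorphisms
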