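import Mathlib
import Pool.Agent.U563.BC.SD

/-!
# Semilinear groups of degree two over noncommutative rings and the conjecture of Baum and Connes

Let `C` be the class of all groups whose countable subgroups satisfy the conjecture of Baum and
Connes with coefficients. It is published that `C` has the closure properties `BCClass2 C`: it is
closed under subgroups, it contains the amenable groups (Higson-Kasparov), the groups with a
subgroup of finite index which embeds in `GL_2(K)` for a field `K` (Guentner-Higson-Weinberger; the
Haagerup property passes to overgroups of finite index), the groups acting on trees with
stabilizers in `C`, and `G` if there is a homomorphism to a member such that the preimages of the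
finite subgroups are members (Oyono-Oyono). For a countable group of `C` the real assembly map is an
isomorphism as well (Baum-Karoubi), so that the maps `θ` of Stolz and `Θ` are surjective.

Let `H` be a group in `C` which acts on the ring `R` by automorphisms. The theorem says that the
semidirect product of `GL_2(R)` and `H` is in `C`, if

(1) `R` is a skew Laurent polynomial ring over a commutative field (`Laurent`), and `H` preserves
the order and the degree, or

(2) `R` is a ring with a degree function and division with remainder, the elements of degree zero
are a commutative field, and `H` preserves the degree; for instance a skew polynomial ring with a
derivation, or a commutative field with any action of `H`.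

It is not known that `C` is closed under overgroups of finite index. By the extension property one
has to treat finite groups `H`, and the group `H` must act on the trees which are used for
`GL_2(R)`. This is the case since the level functions of these trees depend only on the orders and on
the degrees of the entries of the matrices. In (1) the diagonal matrix with the entries `1` and `t`
is not fixed by `H`, but it is changed by a diagonal matrix of order zero only.
-/

namespace Pool.Agent.Results.MP_8db816_gt.SemilinearGroups

open Pool.Agent.U919.GE Pool.Agent.U563.BC

/-- Let `C` be a class of groups with the closure properties `BCClass2 C` (for instance the class of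
the groups whose countable subgroups satisfy the conjecture of Baum and Connes with coefficients),
and let `H` be a group in `C`. (1) If the ring `R` has the property `Laurent R lo hi t`, and `H` acts
on `R` by automorphisms which preserve `lo` and `hi`, then the semidirect product of `GL_2(R)` and
`H` is in `C`. (2) The same is true for a ring `S` with a degree function `d` such that the elements
of degree zero are a commutative field `K` and there is division with remainder, if `H` preserves
the degree. -/
theorem result (C : ∀ (G : Type) [Group G], Prop) (hC : BCClass2 C) (H : Type) [Group H]
    (hH : C H) :
    (∀ (R : Type) [Ring R] (lo hi : R → ℤ) (t : Rˣ) (ρ : H →* RingAut R), Laurent R lo hi t →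
      (∀ (x : H) (s : R), lo (ρ x s) = lo s) → (∀ (x : H) (s : R), hi (ρ x s) = hi s) →
      C (SL R H ρ)) ∧
    (∀ (K S : Type) [Field K] [Ring S] (j : K →+* S) (d : S → ℕ) (ρ : H →* RingAut S),
      Deg j d → (∀ a b : S, b ≠ 0 → ∃ q : S, a - b * q = 0 ∨ d (a - b * q) < d b) →
      (∀ (x : H) (s : S), d (ρ x s) = d s) → C (SL S H ρ)) :=
  ⟨fun _ _ _ _ _ _ h h1 h2 => h.C_semi hC h1 h2 hH,
    fun _ _ _ _ _ _ _ h hdiv h1 => hC.ore_semi h hdiv h1 hH⟩

end Pool.Agent.Results.MP_8db816_gt.SemilinearGroups
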