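import Pool.Agent.U74.BCC.Five
import Pool.Agent.U74.BCC.Bost

/-!
# Surjectivity of the Stolz index map for automorphism groups of Danielewski surfaces

`BCClass C` says that the class `C` of groups has the closure properties which are known for the class of
the groups all of whose countable subgroups satisfy the Baum-Connes conjecture with coefficients:
subgroups; groups whose finitely generated subgroups are in `C`; virtually solvable groups (Higson,
Kasparov); extensions such that the quotient and the preimages of its finite subgroups are in `C`, and
groups acting on trees with stabilizers in `C` (Oyono-Oyono); `GL_2(K)` for all fields `K` (Guentner,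
Higson, Weinberger; Higson, Kasparov).

For a field `K` and a polynomial `P` over `K`, `surfaceGroup P` is the group of automorphisms of the
coordinate ring `K[x, y, z] / (x y - P(z))` of the Danielewski surface generated by the linear
automorphisms (`z ↦ m z + n`, and `x`, `y` are multiplied by constants or interchanged up to constants)
and the triangular automorphisms (`x ↦ l x`, `z ↦ m z + q(x)`). By a theorem of Makar-Limanov (1990)
this is the group of all automorphisms of the surface over `ℂ` (not used here).

Theorem: for every field `K` and every `P` of degree at least three the group `surfaceGroup P` is in `C`.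
More generally each group with homomorphisms to finitely many such groups, such that the finitely
generated subgroups of the intersection of the kernels are solvable, is in `C`. So the countable groups of
this kind satisfy the Baum-Connes conjecture with coefficients, the real assembly map is an isomorphism (Baum,
Karoubi), and the map `Θ` of Q1 is surjective.

Outline of the proof. The group `surfaceGroup P` acts on the tree of the cosets of the groups of the
linear and of the triangular automorphisms, both of which are solvable; the graph is a tree since the
degrees in `z` of the images of `x` and `y` in `K((x))[z]` are level functions with unique descent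
(`U74.DS`). In general, the preimages of finite subgroups of the image in the product are extensions of finite
groups by locally solvable groups, so their finitely generated subgroups are virtually solvable.
-/

set_option autoImplicit false

namespace Pool.Agent.Results.MP_8db816_gt.SurfaceAutomorphisms

open Pool.Agent.U74.BCC (BCClass)

/-- the equation `x y - P(z)` -/
noncomputable def equation {K : Type} [Field K] (P : Polynomial K) : MvPolynomial (Fin 3) K :=
  MvPolynomial.X 0 * MvPolynomial.X 1 - Polynomial.aeval (MvPolynomial.X 2) P

/-- the coordinate ring `K[x, y, z] / (x y - P(z))` of the Danielewski surface -/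
def Surface {K : Type} [Field K] (P : Polynomial K) : Type :=
  MvPolynomial (Fin 3) K ⧸ Ideal.span {equation P}

section

variable {K : Type} [Field K] {P : Polynomial K}

/-- the ring structure of the quotient -/
noncomputable instance : CommRing (Surface P) :=
  inferInstanceAs (CommRing (MvPolynomial (Fin 3) K ⧸ Ideal.span {equation P}))

/-- the `K`-algebra structure of the quotient -/
noncomputable instance : Algebra K (Surface P) :=
  inferInstanceAs (Algebra K (MvPolynomial (Fin 3) K ⧸ Ideal.span {equation P}))

/-- the coordinate functions `x = coord 0`, `y = coord 1`, `z = coord 2` -/
noncomputable def coord (i : Fin 3) : Surface P :=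
  Ideal.Quotient.mk (Ideal.span {equation P}) (MvPolynomial.X i)

/-- the group of the automorphisms of the coordinate ring -/
abbrev AutSurface {K : Type} [Field K] (P : Polynomial K) : Type := Surface P ≃ₐ[K] Surface P

/-- the automorphism `g` is linear: `z ↦ m z + n`, and `x ↦ l x`, `y ↦ b y` or `x ↦ l y`, `y ↦ b x` -/
def IsLinear (g : AutSurface P) : Prop :=
  ∃ (l b m : Kˣ) (n : K), g (coord 2) = (m : K) • coord 2 + algebraMap K _ n ∧
    ((g (coord 0) = (l : K) • coord 0 ∧ g (coord 1) = (b : K) • coord 1) ∨
      (g (coord 0) = (l : K) • coord 1 ∧ g (coord 1) = (b : K) • coord 0))

/-- the automorphism `g` is triangular: `x ↦ l x`, `z ↦ m z + q(x)` -/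
def IsTriangular (g : AutSurface P) : Prop :=
  ∃ (l m : Kˣ) (q : Polynomial K), g (coord 0) = (l : K) • coord 0 ∧
    g (coord 2) = (m : K) • coord 2 + Polynomial.aeval (coord 0) q

variable (P) in
/-- the group generated by the linear and the triangular automorphisms of the surface -/
noncomputable def surfaceGroup : Subgroup (AutSurface P) :=
  Subgroup.closure {g | IsLinear g ∨ IsTriangular g}

/-- the definitions agree with those of the library -/
theorem surfaceGroup_eq : surfaceGroup P = (U74.DS.aG P ⊔ U74.DS.bG P : Subgroup (U74.DS.Au P)) := by
  apply le_antisymm
  · rw [surfaceGroup, Subgroup.closure_le]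
    rintro g (hg | hg)
    · exact Subgroup.mem_sup_left (S := U74.DS.aG P) (T := U74.DS.bG P) hg
    · exact Subgroup.mem_sup_right (S := U74.DS.aG P) (T := U74.DS.bG P) hg
  · refine sup_le (a := U74.DS.aG P) (b := U74.DS.bG P) ?_ ?_
    · intro g hg
      exact Subgroup.subset_closure (Or.inl hg)
    · intro g hg
      exact Subgroup.subset_closure (Or.inr hg)

end

/-- the groups `surfaceGroup P` for the polynomials `P` of degree at least three over fields -/
inductive IsSurfaceGroup : (Q : Type) → [Group Q] → Prop
  | mk (K : Type) [Field K] (P : Polynomial K) (h : 3 ≤ P.natDegree) : IsSurfaceGroup ↥(surfaceGroup P)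

/-- Let `C` be a class of groups with the closure properties `BCClass C`. Groups with homomorphisms to
finitely many groups `surfaceGroup P`, with `P` of degree at least three, such that the finitely generated
subgroups of the intersection of the kernels are solvable, are in `C`. -/
theorem result (C : ∀ (G : Type) [Group G], Prop) (hC : BCClass C) (G : Type) [Group G] (n : ℕ)
    (Q : Fin n → Type) [∀ i, Group (Q i)] (hQ : ∀ i, IsSurfaceGroup (Q i)) (f : ∀ i, G →* Q i)
    (hf : ∀ U : Finset G, (∀ u ∈ U, ∀ i, f i u = 1) →
      Group.IsSolvable (Subgroup.closure (U : Set G))) : C G := by
  have hB : U74.Bost.BostClass C := ⟨hC.sub, hC.vsolv, hC.tree, hC.gl2⟩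
  have key : ∀ (Q : Type) [Group Q], IsSurfaceGroup Q → C Q := by
    intro Q _ h
    induction h with
    | mk K P hP =>
      rw [surfaceGroup_eq]
      exact U74.Bost.ds_c hB hP
  obtain ⟨H, _, φ, hH, hφ⟩ := hC.multi Finset.univ Q f fun i => key _ (hQ i)
  exact hC.lsol φ hH fun U hU => hf U fun u hu i => (hφ u).1 (hU u hu) i (Finset.mem_univ i)

end Pool.Agent.Results.MP_8db816_gt.SurfaceAutomorphisms
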